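import Mathlib
import Pool.Agent.helper58.FI.SpecC
import Pool.Agent.helper83.FI.SpecR
import Pool.Agent.helper22.FI.SpecA
import Pool.Agent.helper12.FI.DefsQ

/-!
# Project fi (MP_baa4d7_al), block Q1: characters, second main theorem for one character, weights, norms

RULES. File `Pool/Agent/<seat>/FIB/XXX.lean` (directory FIB) with

  import Pool.Agent.helper70.FI.SpecQ1
  set_option autoImplicit false
  namespace Pool.Agent.FI
  open Pool.Agent.helper58.DC Pool.Agent.DI Pool.Agent.GR Pool.Agent.OB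
  theorem XXX (hYYY : YYY_stmt) ... : XXX_stmt := ...
  end Pool.Agent.FI

auxiliary lemmas prefixed `XXX_`, no sorry, no double quotes in the file. Any statement of this file, of the specs of the
other blocks of this project (`helper58/FI/SpecC`, `helper83/FI/SpecR`, `helper22/FI/SpecA`) and of the older specs (GR:
`helper83/GR/Spec`; DI: `helper81/DI/SpecB`, `SpecC`; DC) may be taken as a hypothesis (no circles); the proved rows of GR, DI, DC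
may also be imported (`Pool/Agent/helper83/GR/All.lean` lists their files).

Notation: `Cz L y = L ⊓ centralizer {y}`; `cjF l ψ = funMap (MulAut.conj l) ψ`, `cjF l ψ x = ψ (l⁻¹ x l)`; `cjS l K = l K l⁻¹`;
`mt K χ ψ` multiplicity; `ev χ i g = ∑ᶠ x, i x * χ (g * x)`; `eS K S` the idempotent of the set `S` of characters of `K`;
`Bl M L θ = {ψ ∈ IrrOn L | SB M L ψ θ}`; `BlC M L θ y = {η ∈ IrrOn (Cz L y) | SB M L η θ}`;
`dd M K θ χ u = ∑ᶠ ψ ∈ Bl M K θ, mt K χ ψ * (ψ u / ψ 1)`; `EE p H ψ ψ' = |H|⁻¹ ∑ ψ v * ψ' v⁻¹` over the `p`-regular `v ∈ H`;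
`Cen L u`: `u` commutes with all of `L`; `Zc D L = {u ∈ D | Cen L u}`; `iL M D L θ = |TT M D θ ⊓ L : cz D|`; `GU`: all
`Cz L u`, `u ∈ D` not central in `L`, are `Good`. Structure `Lo0` (`helper58/FI/DefsC`): the local data (`rt free nb cyc bet con cnj
dfl eqr`). Facts proved below: `Q1_mono`, `Q1_BC`, `Q1_D_le` (`D ≤ cz P`), `Q1_C_le` (`cz D ≤ cz P`), `Q1_C_Cz`.
-/

set_option autoImplicit false

namespace Pool.Agent.FI

open Pool.Agent.helper58.DC Pool.Agent.DI Pool.Agent.GR Pool.Agent.OB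

section

variable {G : Type} [Group G]

theorem Q1_mono {M : Ideal (integralClosure ℤ ℂ)} {H L : Subgroup G} (hHL : H ≤ L) {η ψ : G → ℂ}
    (hη : ∀ x, x ∉ H → η x = 0) (hψ : ∀ x, x ∉ H → ψ x = 0) (h : SB M H η ψ) : SB M L η ψ := by
  classical
  intro z hz hi
  have h1 : CF H (fun x => if x ∈ H then z x else 0) := by
    refine ⟨fun k hk x => ?_, fun x hx => if_neg hx⟩
    have h2 : k * x * k⁻¹ ∈ H ↔ x ∈ H := by
      constructor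
      · intro h3
        have h4 := H.mul_mem (H.mul_mem (H.inv_mem hk) h3) hk
        have h5 : k⁻¹ * (k * x * k⁻¹) * k = x := by group
        rwa [h5] at h4
      · intro h3
        exact H.mul_mem (H.mul_mem hk h3) (H.inv_mem hk)
    by_cases hx : x ∈ H
    · change (if k * x * k⁻¹ ∈ H then z (k * x * k⁻¹) else 0) = if x ∈ H then z x else 0
      rw [if_pos hx, if_pos (h2.2 hx)]
      exact hz.1 k (hHL hk) x
    · change (if k * x * k⁻¹ ∈ H then z (k * x * k⁻¹) else 0) = if x ∈ H then z x else 0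
      rw [if_neg hx, if_neg (fun h3 => hx (h2.1 h3))]
  have h2 := h _ h1 (fun x => by
    by_cases hx : x ∈ H
    · simp only [if_pos hx]
      exact hi x
    · simp only [if_neg hx]
      exact isIntegral_zero)
  have h3 : ∀ φ : G → ℂ, (∀ x, x ∉ H → φ x = 0) →
      cc φ (fun x => if x ∈ H then z x else 0) = cc φ z := by
    intro φ hφ
    unfold cc
    congr 1
    refine finsum_congr fun x => ?_
    by_cases hx : x ∈ H
    · simp only [if_pos hx]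
    · simp only [if_neg hx, hφ x hx, mul_zero]
  rwa [h3 η hη, h3 ψ hψ] at h2

theorem Q1_BC (M : Ideal (integralClosure ℤ ℂ)) (L : Subgroup G) (y : G) (θ : G → ℂ) :
    BC M L (Bl M L θ) ∧ BC M (Cz L y) (BlC M L θ y) :=
  ⟨⟨fun _ h => h.1, fun _ hψ _ hψ' hz =>
    ⟨hψ', SB.trans (SB.symm (fun z h1 h2 => hz z h1 h2)) hψ.2⟩⟩,
  ⟨fun _ h => h.1, fun _ hψ _ hψ' hz => ⟨hψ', SB.trans
    (Q1_mono inf_le_left hψ'.1 hψ.1.1 (SB.symm (fun z h1 h2 => hz z h1 h2))) hψ.2⟩⟩⟩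

theorem Q1_D_le {p : ℕ} {M : Ideal (integralClosure ℤ ℂ)} {D P : Subgroup G} {x : G} {θ χ : G → ℂ}
    (h : Rt p M D x θ χ) (hP : P ≤ D) : D ≤ cz P := by
  intro d hd
  rw [Subgroup.mem_centralizer_iff]
  intro q hq
  exact h.com q (hP hq) d hd

theorem Q1_C_le {D P : Subgroup G} (hP : P ≤ D) : cz D ≤ cz P := Subgroup.centralizer_le hP

theorem Q1_C_Cz {D P : Subgroup G} (hP : P ≤ D) {u : G} (hu : u ∈ D) : cz D ≤ Cz (cz P) u := by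
  refine le_inf (Q1_C_le hP) fun c hc => ?_
  rw [Subgroup.mem_centralizer_iff] at hc ⊢
  intro q hq
  rw [Set.mem_singleton_iff] at hq
  rw [hq]
  exact hc u hu

end

/-! ## Characters and idempotents -/

/-- **QCE** (short). Central elements. Proof: SCH of GR with `x = u`, `y = v`: `u * (t * v * t⁻¹) = t * (u * v) * t⁻¹` for `t ∈ K`, so
the sum is `|K| ψ (u v)` (B2 of DI: class function) and `ψ 1 * ψ (u v) = ψ u * ψ v` (also for `v ∉ K`: both sides are `0`).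
`v = u⁻¹` and CHC (SpecR) give the second item. `ψ u / ψ 1 = cc ψ z` for `z` the indicator function of `{u}`, a class function of `K`
with integral values; C3 (1) of DI. Uses: SCH, CHC, B2, C3. -/
def QCE_stmt : Prop :=
  ∀ (G : Type) [Group G] [Finite G] (K : Subgroup G), ∀ u ∈ K, Cen K u → ∀ ψ ∈ IrrOn K,
    (∀ v, ψ (u * v) * ψ 1 = ψ u * ψ v) ∧ ψ u * (starRingEnd ℂ) (ψ u) = ψ 1 ^ 2 ∧
    IsIntegral ℤ (ψ u / ψ 1)

/-- **QRS** (short to medium). Restriction to a subgroup. Proof: B3 of DI for the group `L` (as a type) and its subgroup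
`K.subgroupOf L`, transported to `G` with B13 of DI (`i = L.subtype`, `(K.subgroupOf L).map L.subtype = K` as `K ≤ L`), or the
definition of `IrrOn`: there are natural numbers `m ψ` with `χ' g = ∑ᶠ ψ ∈ IrrOn K, m ψ * ψ g` for `g ∈ K`. Multiply with `ψ g⁻¹` and sum
over `g ∈ K`: by B2 of DI (orthogonality) `mt K χ' ψ = m ψ`. Uses: B3, B13, B2 of DI. -/
def QRS_stmt : Prop :=
  ∀ (G : Type) [Group G] [Finite G] (L K : Subgroup G), K ≤ L → ∀ χ' ∈ IrrOn L,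
    (∀ ψ ∈ IrrOn K, ∃ n : ℕ, mt K χ' ψ = n) ∧
    ∀ g ∈ K, χ' g = ∑ᶠ ψ ∈ IrrOn K, mt K χ' ψ * ψ g

/-- **QRP** (short to medium). Every representation is a sum of irreducible ones, in terms of characters. Proof: let `χ = ρ.character` and
`m ψ` the dimension of the space of intertwining maps between `ρ` and a representation with character `ψ`
(`Representation.card_inv_mul_sum_char_mul_char_eq_finrank`, as in the proof of B3 of DI; grep `theorem B3` in `Pool/Agent/*/DI`);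
`χ - ∑ m ψ ψ` is a class function orthogonal to `Irr H`, so it is `0` (completeness: EXP of GR for `H = ⊤` or CPL, grep `CPL`). -/
def QRP_stmt : Prop :=
  ∀ (H : Type) [Group H] [Finite H] (V : Type) [AddCommGroup V] [Module ℂ V] [FiniteDimensional ℂ V]
    (ρ : Representation ℂ H V), ∃ m : (H → ℂ) → ℕ,
    ∀ g : H, ρ.character g = ∑ᶠ ψ ∈ Irr H, (m ψ : ℂ) * ψ g

/-- **QEV** (medium). Proof: let `ρ` be a representation of the group `H` on `V` affording `χ'` (restricted to `H`),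
`A = ∑_{x ∈ H} i x • ρ x`. `A * A = A` (`cv i i = i`, `i` is supported on `H`), `ρ s * A = A * ρ s` for `s ∈ H'` (`Inv`). Let
`W = LinearMap.range A`, stable under `ρ s`, `s ∈ H'`: a representation of `H'` (the group `H'`) with
character `s ↦ tr(ρ s restricted to W) = tr(ρ s * A)` (`LinearMap.trace_restrict_eq_of_forall_mem` for `f = ρ s * A`, whose
range lies in `W` and which agrees with `ρ s` on `W`) `= ∑_x i x * χ' (s x) = ev χ' i s`. Apply QRP to it, and translate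
`Irr H'` to `IrrOn H'` (`ψ ↦` extension by zero, a bijection). Uses: QRP. -/
def QEV_stmt : Prop :=
  ∀ (G : Type) [Group G] [Finite G] (H H' : Subgroup G), H' ≤ H → ∀ i : G → ℂ,
    (∀ x, x ∉ H → i x = 0) → cv i i = i → Inv H' i → ∀ χ' ∈ IrrOn H,
    ∃ m : (G → ℂ) → ℕ, ∀ x ∈ H', ev χ' i x = ∑ᶠ ψ ∈ IrrOn H', (m ψ : ℂ) * ψ x

/-- **QEK** (short). An idempotent of `K` acts on the functions `∑ c ψ ψ`. Proof: finite sums (`IrrOn K` is finite, B2); for `ψ ∈ IrrOn K`, `x ∈ K`: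
`∑ᶠ w, eS K U w * ψ (w * x) = ev ψ (eS K U) x` (`ψ (w x) = ψ (x w)` for `w ∈ K`) `= cc ψ (eS K U) * ψ x` (EVM of SpecR, second item; `CF K (eS K U)` by IDM), and
`cc ψ (eS K U) = 1` if `ψ ∈ U` and `0` otherwise (IDM). Uses: EVM, IDM, B2. -/
def QEK_stmt : Prop :=
  ∀ (G : Type) [Group G] [Finite G] (K : Subgroup G) (U : Set (G → ℂ)), U ⊆ IrrOn K →
    ∀ (c : (G → ℂ) → ℂ) (f : G → ℂ), (∀ x ∈ K, f x = ∑ᶠ ψ ∈ IrrOn K, c ψ * ψ x) →
    ∀ x ∈ K, ∑ᶠ w, eS K U w * f (w * x) = ∑ᶠ ψ ∈ U, c ψ * ψ x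

/-- **QEU** (short). Proof: `m` from QEV. For `x ∈ H'`: `ev χ' i x = ev χ' (cv i e) x = ∑_z ∑_w i z * e w * χ' (x * z * w)`
(`e = eS H' U`), `χ' (x z w) = χ' (w x z)` for `w ∈ H' ≤ H` (class function of `H`), so it is `∑_w e w * ev χ' i (w * x)`; QEK with
`c ψ = m ψ`, `f = ev χ' i`. Uses: QEV, QEK, B2. -/
def QEU_stmt : Prop :=
  ∀ (G : Type) [Group G] [Finite G] (H H' : Subgroup G), H' ≤ H → ∀ i : G → ℂ,
    (∀ x, x ∉ H → i x = 0) → cv i i = i → Inv H' i → ∀ U : Set (G → ℂ), U ⊆ IrrOn H' →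
    cv i (eS H' U) = i → ∀ χ' ∈ IrrOn H,
    ∃ m : (G → ℂ) → ℕ, ∀ x ∈ H', ev χ' i x = ∑ᶠ ψ ∈ U, (m ψ : ℂ) * ψ x

/-- **QES** (short). Proof: `ev χ' (eS K S) g = ∑_x e x * χ' (g x)`, only `x ∈ K` matter, `χ' (g x) = χ' (x g)` (`g ∈ K ≤ L`, class function
of `L`), QRS and QEK with `c ψ = mt K χ' ψ`, `f = χ'`. Second item: `K = L`: `mt L χ' ψ` is `1` for `ψ = χ'` and `0` for the other
`ψ ∈ IrrOn L` (B2); for `g ∈ L`. Uses: QRS, QEK, B2. -/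
def QES_stmt : Prop :=
  ∀ (G : Type) [Group G] [Finite G] (L : Subgroup G), ∀ χ' ∈ IrrOn L,
    (∀ (K : Subgroup G), K ≤ L → ∀ S : Set (G → ℂ), S ⊆ IrrOn K → ∀ g ∈ K,
      ev χ' (eS K S) g = ∑ᶠ ψ ∈ S, mt K χ' ψ * ψ g) ∧
    ∀ S : Set (G → ℂ), S ⊆ IrrOn L → ∀ g ∈ L,
      (χ' ∈ S → ev χ' (eS L S) g = χ' g) ∧ (χ' ∉ S → ev χ' (eS L S) g = 0)

/-- **QCJ** (short). Transport of `mt` and `EE` by conjugation. Proof: substitution `v ↦ l v l⁻¹` in the sums; `PReg` is invariant under conjugation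
(`orderOf` of a conjugate), `|cjS l K| = |K|`, `mem_cjS`, `cjF_apply` (`helper58/FI/DefsC`). -/
def QCJ_stmt : Prop :=
  ∀ (G : Type) [Group G] [Finite G] (l : G) (K : Subgroup G),
    (∀ (p : ℕ) (η ψ : G → ℂ), EE p (cjS l K) (cjF l η) (cjF l ψ) = EE p K η ψ) ∧
    ∀ χ' : G → ℂ, (∀ x, χ' (l * x * l⁻¹) = χ' x) → ∀ ψ : G → ℂ,
      mt (cjS l K) χ' (cjF l ψ) = mt K χ' ψ

/-! ## The idempotent matrix `EE` -/

open Classical in
/-- **QIT** (medium). Proof: `f g = ∑ᶠ ψ' ∈ T, EE p H ψ ψ' * ψ' g`. (a) If `g ∈ H` is not `p`-regular then `f g = 0`: `|H| f g` is the sum over the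
`p`-regular `v ∈ H` of `ψ v * ∑_{ψ' ∈ T} ψ' g * ψ' v⁻¹ = ψ v * Sf T g v`, and `Sf T g v = 0` by BR0 of GR with `g = y w`, `y` the `p`-part and `w` the `p`-regular part of `g`
(both are powers of `g`; `y ≠ 1`), and `y' = 1`, `v' = v` (`h⁻¹ y h ≠ 1`). (b) The left side of the claim is `|H|⁻¹ ∑_w f w * ψ'' w⁻¹` over the `p`-regular `w ∈ H`, by (a) over all
`w ∈ H`, that is `∑_{ψ' ∈ T} EE p H ψ ψ' * (|H|⁻¹ ∑_{w} ψ' w * ψ'' w⁻¹)`; orthogonality (B2). Uses: BR0, B2. -/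
def QIT_stmt : Prop :=
  ∀ (p : ℕ) (M : Ideal (integralClosure ℤ ℂ)), Setup p M → ∀ (G : Type) [Group G] [Finite G]
    (H : Subgroup G) (T : Set (G → ℂ)), BC M H T → ∀ ψ ∈ IrrOn H, ∀ ψ'' ∈ IrrOn H,
    ∑ᶠ ψ' ∈ T, EE p H ψ ψ' * EE p H ψ' ψ'' = if ψ'' ∈ T then EE p H ψ ψ'' else 0

/-- **QEI** (short). Proof. (1) QIT. (3) CHC (SpecR). (4) `EE p H ψ ψ = |H|⁻¹ ∑ ψ v * conj (ψ v)` is real and at least `|H|⁻¹ ψ(1)² > 0` (`v = 1`). (2) `T = IrrOn H \ S` is also a union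
of blocks (if `ψ ∈ T`, `ψ' ∈ IrrOn H` have the same central character then `ψ' ∉ S` by `BC.closed`, `SB.symm`). QIT for `T` and `ψ'' = ψ ∈ S` (so `ψ ∉ T`):
`∑_{ψ' ∈ T} EE ψ ψ' * EE ψ' ψ = 0`, and by (3) the summands are `|EE ψ ψ'|² ≥ 0`, so all are `0`. Uses: QIT, CHC, B2. -/
def QEI_stmt : Prop :=
  ∀ (p : ℕ) (M : Ideal (integralClosure ℤ ℂ)), Setup p M → ∀ (G : Type) [Group G] [Finite G]
    (H : Subgroup G) (S : Set (G → ℂ)), BC M H S →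
    (∀ ψ ∈ S, ∀ ψ'' ∈ S, ∑ᶠ ψ' ∈ S, EE p H ψ ψ' * EE p H ψ' ψ'' = EE p H ψ ψ'') ∧
    (∀ ψ ∈ S, ∀ ψ' ∈ IrrOn H, ψ' ∉ S → EE p H ψ ψ' = 0 ∧ EE p H ψ' ψ = 0) ∧
    (∀ ψ ∈ IrrOn H, ∀ ψ' ∈ IrrOn H, EE p H ψ' ψ = (starRingEnd ℂ) (EE p H ψ ψ')) ∧
    (∀ ψ ∈ IrrOn H, ∃ r : ℝ, 0 < r ∧ EE p H ψ ψ = r)

/-- **QIR** (short to medium). The trace. Proof: the matrix `E = (EE ψ ψ')` on the finite set `S` (B2) is idempotent (QEI (1)), so its trace is its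
rank (grep Mathlib for the trace of an idempotent: `LinearMap.IsIdempotentElem`, `LinearMap.IsProj.trace`, `Matrix.rank`), a
natural number, and it is positive as every `EE ψ ψ > 0` (QEI (4)) and `S` is nonempty. Uses: QEI, B2. -/
def QIR_stmt : Prop :=
  ∀ (p : ℕ) (M : Ideal (integralClosure ℤ ℂ)), Setup p M → ∀ (G : Type) [Group G] [Finite G]
    (H : Subgroup G) (S : Set (G → ℂ)), BC M H S → S.Nonempty →
    ∃ l : ℕ, 1 ≤ l ∧ ∑ᶠ ψ ∈ S, EE p H ψ ψ = l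

/-- **QIN** (short). `|L| * EE p L ψ ψ / ψ 1` is an algebraic integer. Proof: it is `cc ψ z` for `z v = ψ v⁻¹` if `v ∈ L` is `p`-regular and `0` otherwise, a class
function of `L` with integral values (B2); C3 (1) of DI. Uses: B2, C3. -/
def QIN_stmt : Prop :=
  ∀ (p : ℕ) (G : Type) [Group G] [Finite G] (L : Subgroup G), ∀ ψ ∈ IrrOn L,
    IsIntegral ℤ ((Nat.card L : ℂ) * EE p L ψ ψ / ψ 1)

/-! ## The second main theorem for one character, the numbers `dd` -/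

open Classical in
/-- **QSM** (short). Second main theorem. Proof: `K = Cz L y`, `g = y v ∈ K`, `e = eS L (Bl M L θ)`, `f = eS K (BlC M L θ y)`. Both are `Idm M L` (support; EIN with `Q1_BC`; IDM) and
invariant under conjugation by `g ∈ K` (`e` is a class function of `L`, `f` of `K`; IDM (1)), and `e x - f x` is `InM` for `x ∈ K` (EQY of SpecA; `Bq M L (Cz L y) θ` is `BlC M L θ y` by
definition). By RR1 (SpecR) `ev χ' e g = ev χ' f g`. By QES the left side is `χ' g` if `χ' ∈ Bl M L θ` and `0` otherwise, the right side is `∑ᶠ η ∈ BlC, mt K χ' η * η g`.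
Uses: RR1, EQY, QES, EIN, IDM. -/
def QSM_stmt : Prop :=
  ∀ (p : ℕ) (M : Ideal (integralClosure ℤ ℂ)), Setup p M → ∀ (G : Type) [Group G] [Finite G]
    (L : Subgroup G), ∀ y ∈ L, PEl p y → ∀ θ : G → ℂ, ∀ v ∈ Cz L y, PReg p v → ∀ χ' ∈ IrrOn L,
    ∑ᶠ η ∈ BlC M L θ y, mt (Cz L y) χ' η * η (y * v) = if χ' ∈ Bl M L θ then χ' (y * v) else 0

/-- **QDI** (short). Proof: a finite sum (`IrrOn` finite, B2) of products of natural numbers (QRS) and integral numbers (QCE, `u` is central in `Cz L u`).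
Uses: QRS, QCE, B2. -/
def QDI_stmt : Prop :=
  ∀ (G : Type) [Group G] [Finite G] (M : Ideal (integralClosure ℤ ℂ)) (L : Subgroup G) (θ : G → ℂ),
    ∀ u ∈ L, ∀ χ' ∈ IrrOn L, IsIntegral ℤ (dd M (Cz L u) θ χ' u)

/-- **QDC** (short). Transport. Proof: `K = Cz L u`, `Cz L (l u l⁻¹) = cjS l K` (FEQ; `cjS l L = L`); `η ↦ cjF l η` is a bijection from `Bl M K θ` to `Bl M (cjS l K) (cjF l θ)` (FEQ; inverse `cjF l⁻¹`);
`mt (cjS l K) χ' (cjF l η) = mt K χ' η` (QCJ, `χ'` is a class function of `L`, B2), `cjF l η (l u l⁻¹) = η u`, `cjF l η 1 = η 1`. Uses: FEQ, QCJ, B2. -/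
def QDC_stmt : Prop :=
  ∀ (G : Type) [Group G] [Finite G] (M : Ideal (integralClosure ℤ ℂ)) (L : Subgroup G) (θ : G → ℂ),
    ∀ l ∈ L, ∀ u : G, ∀ χ' ∈ IrrOn L,
    dd M (Cz L (l * u * l⁻¹)) (cjF l θ) χ' (l * u * l⁻¹) = dd M (Cz L u) θ χ' u

/-! ## Weights -/

/-- **QCN** (medium). Every relative subpair is conjugate into `D`. Proof: `L = cz P`. `Q = P ⊔ zpowers y` is a `p`-group (`y` is a `p`-element which commutes with `P`, `P ≤ D` is a `p`-group), `cz Q = Cz L y`.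
`Induces M η χ`: `SB M L η θ` and `lo.rt.ind` (FSI (2) for `L`: `Induces M η χ ↔ Induces M θ χ`; `θ` vanishes outside `cz D ≤ L`). `lo.con` gives `g` with `cjS g Q ≤ D`, `SB M (cz (cjS g Q)) θ (cjF g η)`. Let
`P' = cjS g P ≤ D`, `ψ₀ ∈ IrrOn L` with `SB M L θ ψ₀` (EXB of SpecA for `cz D = L ⊓ cz D`, `Q = D`), `ψ = cjF g ψ₀ ∈ IrrOn (cz P')`. `SB M (cz P') θ (cjF g η)` (`Q1_mono`/FSI (1), `cz (cjS g Q) ≤ cz P'`), and `SB M L η ψ₀` gives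
`SB M (cz P') (cjF g η) ψ` (FEQ), so `SB M (cz P') θ ψ`. Apply `lo.cnj` to `P'`, `ψ`, `D₁ = cjS g D`, `θ₁ = cjF g θ` (`SB M (cz P') (cjF g θ) (cjF g ψ₀)` by FEQ): `k ∈ cz P'` with `cjS k D₁ = D`, `SB M (cz D) (cjF k θ₁) θ`: so
`t = k * g ∈ TT M D θ`. Put `l = t⁻¹ * g = g⁻¹ * k⁻¹ * g ∈ cz P` (as `k ∈ cz (cjS g P)`). `l * y * l⁻¹ = t⁻¹ (g y g⁻¹) t ∈ D` and, with `u = l y l⁻¹`, `cjS l Q = P ⊔ zpowers u`, `cz (cjS l Q) = Cz L u`:
`SB M (Cz L u) θ (cjF l η)` from `SB M (cz (cjS g Q)) θ (cjF g η)` by conjugation with `t⁻¹` and `SB M (Cz L u) (cjF t⁻¹ θ) θ` (`t⁻¹ ∈ TT M D θ`, `cz D ≤ Cz L u` by `Q1_C_Cz`, `Q1_mono`). Uses: EXB, FSI, FEQ. -/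
def QCN_stmt : Prop :=
  ∀ (p : ℕ) (M : Ideal (integralClosure ℤ ℂ)), Setup p M → ∀ (G : Type) [Group G] [Finite G]
    (D : Subgroup G) (x : G) (θ χ : G → ℂ), Lo0 p M D x θ χ → ∀ P ≤ D, ∀ y ∈ cz P, PEl p y →
    ∀ η ∈ IrrOn (Cz (cz P) y), SB M (cz P) η θ →
    ∃ l ∈ cz P, l * y * l⁻¹ ∈ D ∧ SB M (Cz (cz P) (l * y * l⁻¹)) θ (cjF l η)

/-- **QFU** (short to medium). Fusion. Proof: `L = cz P`, `P' = P ⊔ zpowers a ≤ D`, `cz P' = Cz L a`. `D₁ = cjS l D ⊇ P'` (`l` centralises `P ≤ D`, `l u l⁻¹ = a`), `θ₁ = cjF l θ ∈ IrrOn (cz D₁)`, `|D₁| = |D|`.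
`SB M (Cz L a) θ₁ (cjF l ψ)` from `SB M (Cz L u) θ ψ` (FEQ, `cjS l (Cz L u) = Cz L a`). `lo.cnj` for `P'`, `cjF l ψ`: `k ∈ Cz L a` with `cjS k D₁ = D`, `SB M (cz D) (cjF k θ₁) θ`: `t = k * l ∈ TT M D θ`, `t ∈ L`,
`t u t⁻¹ = k a k⁻¹ = a`. (This is part of the proof of DOR of `helper58/FI/SpecC`.) Uses: FEQ. -/
def QFU_stmt : Prop :=
  ∀ (p : ℕ) (M : Ideal (integralClosure ℤ ℂ)), Setup p M → ∀ (G : Type) [Group G] [Finite G]
    (D : Subgroup G) (x : G) (θ χ : G → ℂ), Lo0 p M D x θ χ → ∀ P ≤ D, ∀ u ∈ D, ∀ l ∈ cz P,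
    l * u * l⁻¹ ∈ D → ∀ ψ ∈ IrrOn (Cz (cz P) u), SB M (Cz (cz P) u) θ ψ →
    SB M (Cz (cz P) (l * u * l⁻¹)) θ (cjF l ψ) →
    ∃ k ∈ Cz (cz P) (l * u * l⁻¹), k * l ∈ TT M D θ

/-- **QWT** (medium). Weights. Proof: `L = cz P`, `K = Cz L y`. QCN: `l₀ ∈ L`, `u₀ = l₀ y l₀⁻¹ ∈ D`, `SB M (Cz L u₀) θ (cjF l₀ η)`. `u₀ ≠ 1`. CLAIM: the first components of
the pairs are exactly the elements `l₀⁻¹ c t`, `c ∈ C₀ = Cz L u₀`, `t ∈ T_L = TT M D θ ⊓ L` (the second one is `l⁻¹ y l`). (a) Let `(l, u)` be a pair, `k = l₀ l ∈ L`, so `k u k⁻¹ = u₀`; `ψ = cjF l⁻¹ η ∈ IrrOn (Cz L u)`;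
`SB M (Cz L u) θ ψ` (FEQ with `l⁻¹`), `cjF k ψ = cjF l₀ η`, `SB M (Cz L u₀) θ (cjF k ψ)`. QFU: `c' ∈ C₀` with `t = c' k ∈ TT M D θ`, `t ∈ L`; so `l = l₀⁻¹ c'⁻¹ t`.
(b) Let `l = l₀⁻¹ c t`, `u = t⁻¹ u₀ t ∈ D`: `l u l⁻¹ = l₀⁻¹ u₀ l₀ = y`. `SB M (cz D) (cjF t θ) θ` gives `SB M C₀ (cjF t θ) θ` (`Q1_mono`, `Q1_C_Cz`), conjugation by `c ∈ C₀` gives `SB M C₀ (cjF (c t) θ) (cjF t θ)`
(class functions of `C₀` are invariant, `cc_funMap`), so `SB M C₀ (cjF (c t) θ) (cjF l₀ η)`, and `SB M K (cjF l θ) η` (FEQ with `l₀⁻¹`). So the number is `|C₀ T_L| = |C₀| |T_L| / |C₀ ⊓ T_L|` (product formula for subgroups), and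
`C₀ ⊓ T_L = cz D`: `⊆` by `free` (`u₀ ≠ 1`), `⊇` FRA (1). `|C₀| = |K|` (conjugate by `l₀`), `|T_L| / |cz D| = iL M D L θ` (relIndex). Uses: QCN, QFU, FEQ, FRA. -/
def QWT_stmt : Prop :=
  ∀ (p : ℕ) (M : Ideal (integralClosure ℤ ℂ)), Setup p M → ∀ (G : Type) [Group G] [Finite G]
    (D : Subgroup G) (x : G) (θ χ : G → ℂ), Lo0 p M D x θ χ → ∀ P ≤ D, ∀ y ∈ cz P, PEl p y → y ≠ 1 →
    ∀ η ∈ IrrOn (Cz (cz P) y), SB M (cz P) η θ →
    Nat.card {q : G × G // q.1 ∈ cz P ∧ q.2 ∈ D ∧ q.1 * q.2 * q.1⁻¹ = y ∧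
      SB M (Cz (cz P) y) (cjF q.1 θ) η} = iL M D (cz P) θ * Nat.card (Cz (cz P) y)

/-! ## Norms -/

open Classical in
/-- **QMG** (short). The matrix `EE` of `Cz L (l u l⁻¹)` on the conjugates of a good block. Proof: `K = Cz L (l u l⁻¹) = cjS l (Cz L u)` (FEQ, `cjS l L = L`). If `SB M K η η'` is false: QEI (2) for the block
`Bl M K η` (`Q1_BC`; `η ∈` it, `η' ∉` it). Otherwise let `η₁ = cjF l⁻¹ η`, `η₁' = cjF l⁻¹ η'` (`η = cjF l η₁`): `EE p K η η' = EE p (Cz L u) η₁ η₁'` (QCJ) and `η₁`, `η₁' ∈ Bl M (Cz L u) θ`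
(FEQ); HTN (`helper58/FI/SpecC`) says `|D| |Cz L u| EE = |Cz L u|`. Uses: FEQ, QCJ, QEI, HTN. -/
def QMG_stmt : Prop :=
  ∀ (p : ℕ) (M : Ideal (integralClosure ℤ ℂ)), Setup p M → ∀ (G : Type) [Group G] [Finite G]
    (D L : Subgroup G) (θ : G → ℂ), ∀ l ∈ L, ∀ u ∈ L, Good p M D (Cz L u) θ →
    ∀ η ∈ IrrOn (Cz L (l * u * l⁻¹)), SB M (Cz L (l * u * l⁻¹)) (cjF l θ) η →
    ∀ η' ∈ IrrOn (Cz L (l * u * l⁻¹)), EE p (Cz L (l * u * l⁻¹)) η η' =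
      if SB M (Cz L (l * u * l⁻¹)) η η' then 1 / (Nat.card D : ℂ) else 0

/-- **QMS** (short to medium). Sum over the `p`-regular elements of `K = Cz L y` of the squares of a section. Proof: `a η = mt K χ' η * (η y / η 1)` for `η ∈ T = BlC M L θ y`. By QSM and QCE (`y` is central in `K`) `χ' (y v) = ∑_{η ∈ T} a η * η v` for
`p`-regular `v ∈ K`, and `χ' (y v)⁻¹ = conj (χ' (y v))` (CHC). Multiply out, exchange the finite sums: `∑_v η v * conj (η' v) = |K| EE p K η η'`. Uses: QSM, QCE, CHC, B2. -/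
def QMS_stmt : Prop :=
  ∀ (p : ℕ) (M : Ideal (integralClosure ℤ ℂ)), Setup p M → ∀ (G : Type) [Group G] [Finite G]
    (L : Subgroup G), ∀ y ∈ L, PEl p y → ∀ θ : G → ℂ, ∀ χ' ∈ Bl M L θ,
    ∑ᶠ v ∈ {v : G | v ∈ Cz L y ∧ PReg p v}, χ' (y * v) * χ' (y * v)⁻¹ =
    (Nat.card (Cz L y) : ℂ) * ∑ᶠ η ∈ BlC M L θ y, ∑ᶠ η' ∈ BlC M L θ y,
      (mt (Cz L y) χ' η * (η y / η 1)) * (starRingEnd ℂ) (mt (Cz L y) χ' η' * (η' y / η' 1)) *
        EE p (Cz L y) η η'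

/-- **QMY** (medium). One section `y ≠ 1`. Proof: `L = cz P`, `K = Cz L y`, `T = BlC M L θ y`, `a η = mt K χ' η * (η y / η 1)`. QMS: the sum on the left is `|K| ∑_{η, η' ∈ T} a η * conj (a η') * EE p K η η'`. Every `η ∈ T` has a pair `(l, u)` (QWT: their number is
`iL |K| > 0`; `iL ≥ 1`), so by QMG `EE p K η η' = 1 / |D|` if `SB M K η η'` and `0` otherwise (`y = l u l⁻¹`). Insert for every `η ∈ T` the weight (QWT): `iL |K|` is the number of the pairs `q = (l, u)` with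
`SB M K (cjF l θ) η`. We get `|D| iL ∑_v .. = ∑_{η ∈ T} ∑_{q : SB M K (cjF l θ) η} ∑_{η' ∈ T, SB M K η η'} a η * conj (a η')`; exchange the sums: for a pair `q` the `η` and the `η'` run through `Bl M K (cjF l θ)`, which is contained in `T`
(`SB M L (cjF l θ) θ` as `l ∈ L`: class functions of `L` are invariant, and `Q1_mono`; `cjF l θ` vanishes outside `cz (cjS l D) ≤ K`). So it is `∑_q |∑_{η ∈ Bl M K (cjF l θ)} a η|² = ∑_q dd M (Cz L u) θ χ' u * conj (..)` by QDC (`y = l u l⁻¹`). Uses: QMS, QWT, QMG, QDC, FEQ, B2. -/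
def QMY_stmt : Prop :=
  ∀ (p : ℕ) (M : Ideal (integralClosure ℤ ℂ)), Setup p M → ∀ (G : Type) [Group G] [Finite G]
    (D : Subgroup G) (x : G) (θ χ : G → ℂ), Lo0 p M D x θ χ → ∀ P ≤ D, ∀ y ∈ cz P, PEl p y → y ≠ 1 →
    (∀ l ∈ cz P, ∀ u ∈ D, l * u * l⁻¹ = y → Good p M D (Cz (cz P) u) θ) →
    ∀ χ' ∈ Bl M (cz P) θ,
    (Nat.card D : ℂ) * (iL M D (cz P) θ : ℂ) *
      ∑ᶠ v ∈ {v : G | v ∈ Cz (cz P) y ∧ PReg p v}, χ' (y * v) * χ' (y * v)⁻¹ =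
    ∑ᶠ q ∈ {q : G × G | q.1 ∈ cz P ∧ q.2 ∈ D ∧ q.1 * q.2 * q.1⁻¹ = y},
      dd M (Cz (cz P) q.2) θ χ' q.2 * (starRingEnd ℂ) (dd M (Cz (cz P) q.2) θ χ' q.2)

/-- **QMX** (medium). Norms. Proof: `L = cz P`. `|L| = ∑_{g ∈ L} χ' g * χ' g⁻¹` (B2) `= ∑_y ∑_{v ∈ Cz L y, PReg} χ' (y v) * χ' (y v)⁻¹` over the `p`-elements `y ∈ L` (PPT of GR). For `y ∈ Zc D L` (these are `p`-elements of `L`,
`D ≤ L` by `Q1_D_le`, `D` is a `p`-group: `rt.dfa.pgrp`) `Cz L y = L` and `|χ' (y v)|² = |χ' v|²` (QCE, CHC), so these `y` give `|Zc D L| |L| EE p L χ' χ'`. For the other `y` use QMY: `y ≠ 1` (`1 ∈ Zc D L`), and if `l u l⁻¹ = y`, `l ∈ L`, `u ∈ D`,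
then `u` is not central in `L` (otherwise `y = u ∈ Zc D L`), so `GU` applies. The sum over these `y` of the right sides of QMY is the sum over all `(l, u)`, `l ∈ L`, `u ∈ D` not central in `L` (then `l u l⁻¹` is a `p`-element of `L` not in `Zc D L`), i.e.
`|L| ∑_u |dd|²`. Divide by `|L|` and by `|D| iL` (both `≠ 0`). Uses: B2, PPT, QCE, CHC, QMY. -/
def QMX_stmt : Prop :=
  ∀ (p : ℕ) (M : Ideal (integralClosure ℤ ℂ)), Setup p M → ∀ (G : Type) [Group G] [Finite G]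
    (D : Subgroup G) (x : G) (θ χ : G → ℂ), Lo0 p M D x θ χ → ∀ P ≤ D, GU p M D (cz P) θ →
    ∀ χ' ∈ Bl M (cz P) θ,
    (1 : ℂ) = (Nat.card (Zc D (cz P)) : ℂ) * EE p (cz P) χ' χ' +
      (∑ᶠ u ∈ {u : G | u ∈ D ∧ ¬ Cen (cz P) u}, dd M (Cz (cz P) u) θ χ' u *
        (starRingEnd ℂ) (dd M (Cz (cz P) u) θ χ' u)) /
        ((Nat.card D : ℂ) * (iL M D (cz P) θ : ℂ))

/-- **QVN** (short). Vanishing. Proof: QMX gives `EE p L χ' χ' = 1 / |Zc D L|`; by QIN `|L| / (|Zc D L| χ' 1)` is an algebraic integer and rational, so an integer. Uses: QMX, QIN, B2. -/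
def QVN_stmt : Prop :=
  ∀ (p : ℕ) (M : Ideal (integralClosure ℤ ℂ)), Setup p M → ∀ (G : Type) [Group G] [Finite G]
    (D : Subgroup G) (x : G) (θ χ : G → ℂ), Lo0 p M D x θ χ → ∀ P ≤ D, GU p M D (cz P) θ →
    ∀ χ' ∈ Bl M (cz P) θ,
    (∀ u ∈ D, ¬ Cen (cz P) u → dd M (Cz (cz P) u) θ χ' u = 0) →
    EE p (cz P) χ' χ' = 1 / (Nat.card (Zc D (cz P)) : ℂ) ∧
    ∃ n d : ℕ, χ' 1 = d ∧ n * (Nat.card (Zc D (cz P)) * d) = Nat.card (cz P)

end Pool.Agent.FI
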