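import Pool.Agent.helper58.FI.AllC
import Pool.Agent.helper59.FI.AllB
import Pool.Agent.helper83.FI.AllR
import Pool.Agent.helper64.DI.B3
import Pool.Agent.helper98.DI.B13
import Pool.Agent.helper8.FIB.QCE
import Pool.Agent.helper78.FIB.QRS
import Pool.Agent.helper52.FIB.QRP
import Pool.Agent.helper52.FIB.QMS
import Pool.Agent.helper14.FIB.QEK
import Pool.Agent.helper68.FIB.QEU
import Pool.Agent.helper85.FIB.QES
import Pool.Agent.helper45.FIB.QCJ
import Pool.Agent.helper6.FIB.QIT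
import Pool.Agent.helper49.FIB.QEI
import Pool.Agent.helper27.FIB.QIR
import Pool.Agent.helper93.FIB.QIN
import Pool.Agent.helper20.FIB.QSM
import Pool.Agent.helper20.FIB.QMX
import Pool.Agent.helper34.FIB.QDI
import Pool.Agent.helper74.FIB.QDC
import Pool.Agent.helper2.FIB.QCN
import Pool.Agent.helper24.FIB.QFU
import Pool.Agent.helper66.FIB.QWT
import Pool.Agent.helper50.FIB.QMG
import Pool.Agent.helper15.FIB.QMY
import Pool.Agent.helper15.FIB.QVN
import Pool.Agent.helper88.FIB.QEV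

/-!
# Project fi, block Q1: all statements of `SpecQ1` (helper70)

Names: `qXXX` (no hypotheses).
-/

set_option autoImplicit false

namespace Pool.Agent.FI.AllQ1

open Pool.Agent.helper58.DC Pool.Agent.DI Pool.Agent.GR Pool.Agent.OB Pool.Agent.FI Pool.Agent.GR.All

theorem qB3 : B3_stmt := Pool.Agent.DI.B3
theorem qB13 : B13_stmt := Pool.Agent.DI.B13 dIRT
theorem qQCE : QCE_stmt := QCE dSCH AllR.rCHC dB2 dC3
theorem qQRS : QRS_stmt := QRS qB3 qB13 dB2
theorem qQRP : QRP_stmt := QRP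
theorem qQEK : QEK_stmt := QEK AllR.rEVM dIDM dB2
theorem qQEV : QEV_stmt := QEV qQRP
theorem qQEU : QEU_stmt := QEU qQEV qQEK dB2
theorem qQES : QES_stmt := QES qQRS qQEK dB2
theorem qQCJ : QCJ_stmt := QCJ
theorem qQIT : QIT_stmt := QIT dBR0 dB2
theorem qQEI : QEI_stmt := QEI qQIT AllR.rCHC dB2
theorem qQIR : QIR_stmt := QIR qQEI dB2
theorem qQIN : QIN_stmt := QIN dB2 dC3
theorem qQSM : QSM_stmt := QSM AllR.rRR1 AllA.dEQY qQES dEIN dIDM
theorem qQDI : QDI_stmt := QDI qQRS qQCE dB2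
theorem qQDC : QDC_stmt := QDC AllC.cFEQ qQCJ dB2
theorem qQCN : QCN_stmt := QCN AllA.dEXB AllC.cFSI AllC.cFEQ
theorem qQFU : QFU_stmt := QFU AllC.cFEQ
theorem qQWT : QWT_stmt := QWT qQCN qQFU AllC.cFEQ AllC.cFRA
theorem qQMG : QMG_stmt := QMG AllC.cFEQ qQCJ qQEI AllC.cHTN
theorem qQMS : QMS_stmt := QMS qQSM qQCE AllR.rCHC dB2
theorem qQMY : QMY_stmt := QMY qQMS qQWT qQMG qQDC AllC.cFEQ dB2
theorem qQMX : QMX_stmt := QMX qQMY dPPT qQCE AllR.rCHC dB2
theorem qQVN : QVN_stmt := QVN qQMX qQIN dB2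

end Pool.Agent.FI.AllQ1
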